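import Mathlib

/-!
# MP_437e5a_co: the Whitman number of the dual of the partition lattice on four points

`w (L₄*) ≤ 60 ^ 3 = 216000`, which is less than `2 ^ 1000`.

Let `S` be the alternating group of degree five, a perfect group of order 60. For a partition `π` of
`{0, 1, 2, 3}` let `S^π` be the subgroup of the functions `{0, 1, 2, 3} → S` which are constant on
the blocks of `π`. Then `S^(π ⊔ σ) = S^π ⊓ S^σ`, and `S^(π ⊓ σ) = S^π ⊔ S^σ`: the commutator of a
function which is `s` on a block `P` of `π` and trivial elsewhere and of a function which is `t` on a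
block `Q` of `σ` and trivial elsewhere is the function which is `[s, t]` on `P ∩ Q` and trivial
elsewhere. The partitions of the group into the left cosets of the subgroups `S^π` form a
sublattice dual to the lattice of the `π`. All the subgroups contain the diagonal, so that we may
restrict the partitions to the set of functions with value `1` at `0`.
-/

set_option autoImplicit false

namespace Pool.Agent.Results.MP_437e5a_co.DualPartitionLattice

open Finset
open scoped commutatorElement

/-- The Whitman number of the lattice `L`: the least `n` such that there is a lattice embedding of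
`L` into the lattice of all equivalence relations (partitions) of a set of `n` elements. -/
noncomputable def whitmanNumber (L : Type) [Lattice L] : ℕ :=
  sInf {n : ℕ | ∃ f : LatticeHom L (Setoid (Fin n)), Function.Injective f}

section Group

variable {S : Type} [Group S] {k : ℕ}

/-- the functions which are constant on the blocks of `π` -/
def con (S : Type) [Group S] (π : Setoid (Fin k)) : Subgroup (Fin k → S) where
  carrier := {a | ∀ i j, π i j → a i = a j}
  one_mem' := fun _ _ _ => rfl
  mul_mem' := fun ha hb i j h => by rw [Pi.mul_apply, Pi.mul_apply, ha i j h, hb i j h]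
  inv_mem' := fun ha i j h => by rw [Pi.inv_apply, Pi.inv_apply, ha i j h]

theorem mem_con {π : Setoid (Fin k)} {a : Fin k → S} :
    a ∈ con S π ↔ ∀ i j, π i j → a i = a j := Iff.rfl

theorem mem_con_iff {π : Setoid (Fin k)} {a : Fin k → S} :
    a ∈ con S π ↔ π ≤ Setoid.ker a := Iff.rfl

theorem con_sup (π σ : Setoid (Fin k)) : con S (π ⊔ σ) = con S π ⊓ con S σ := by
  ext a
  rw [Subgroup.mem_inf, mem_con_iff, mem_con_iff, mem_con_iff, sup_le_iff]

theorem con_anti {π σ : Setoid (Fin k)} (h : π ≤ σ) : con S σ ≤ con S π := by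
  intro a ha
  rw [mem_con_iff] at ha ⊢
  exact h.trans ha

open scoped Classical in
/-- the function with value `s` on the block of `i` and `1` elsewhere -/
noncomputable def ind (π : Setoid (Fin k)) (i : Fin k) (s : S) : Fin k → S :=
  fun j => if π i j then s else 1

theorem ind_mem (π : Setoid (Fin k)) (i : Fin k) (s : S) : ind π i s ∈ con S π := by
  intro j l hjl
  unfold ind
  by_cases h : π i j
  · rw [if_pos h, if_pos (π.trans h hjl)]
  · rw [if_neg h, if_neg fun h' => h (π.trans h' (π.symm hjl))]

theorem ind_mul (π : Setoid (Fin k)) (i : Fin k) (s t : S) :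
    ind π i (s * t) = ind π i s * ind π i t := by
  ext j
  simp only [ind, Pi.mul_apply]
  split_ifs <;> simp

theorem ind_one (π : Setoid (Fin k)) (i : Fin k) : ind π i (1 : S) = 1 := by
  ext j
  simp [ind]

theorem ind_inv (π : Setoid (Fin k)) (i : Fin k) (s : S) : ind π i s⁻¹ = (ind π i s)⁻¹ := by
  ext j
  simp only [ind, Pi.inv_apply]
  split_ifs <;> simp

theorem ind_commutator (π σ : Setoid (Fin k)) (i : Fin k) (s t : S) :
    ind (π ⊓ σ) i ⁅s, t⁆ = ⁅ind π i s, ind σ i t⁆ := by
  ext j
  simp only [ind, commutatorElement_def, Pi.mul_apply, Pi.inv_apply]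
  have h : (π ⊓ σ) i j ↔ π i j ∧ σ i j := Iff.rfl
  by_cases h1 : π i j <;> by_cases h2 : σ i j <;> simp [h, h1, h2]

theorem ind_mem_sup (hS : commutator S = ⊤) (π σ : Setoid (Fin k)) (i : Fin k) (s : S) :
    ind (π ⊓ σ) i s ∈ con S π ⊔ con S σ := by
  let K : Subgroup S :=
    { carrier := {s | ind (π ⊓ σ) i s ∈ con S π ⊔ con S σ}
      one_mem' := by
        change ind (π ⊓ σ) i (1 : S) ∈ con S π ⊔ con S σ
        rw [ind_one]; exact one_mem _
      mul_mem' := fun {s t} hs ht => by
        change ind (π ⊓ σ) i (s * t) ∈ con S π ⊔ con S σ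
        rw [ind_mul]; exact mul_mem hs ht
      inv_mem' := fun {s} hs => by
        change ind (π ⊓ σ) i s⁻¹ ∈ con S π ⊔ con S σ
        rw [ind_inv]; exact inv_mem hs }
  have hK : commutator S ≤ K := by
    rw [commutator_def, Subgroup.commutator_le]
    intro s _ t _
    change ind (π ⊓ σ) i ⁅s, t⁆ ∈ con S π ⊔ con S σ
    rw [ind_commutator, commutatorElement_def]
    have h1 : ind π i s ∈ con S π ⊔ con S σ := (le_sup_left : con S π ≤ _) (ind_mem π i s)
    have h2 : ind σ i t ∈ con S π ⊔ con S σ := (le_sup_right : con S σ ≤ _) (ind_mem σ i t)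
    exact mul_mem (mul_mem (mul_mem h1 h2) (inv_mem h1)) (inv_mem h2)
  rw [hS] at hK
  exact hK (Subgroup.mem_top s)

theorem con_inf (hS : commutator S = ⊤) (π σ : Setoid (Fin k)) :
    con S (π ⊓ σ) = con S π ⊔ con S σ := by
  classical
  apply le_antisymm
  · intro a ha
    rw [mem_con] at ha
    have key : ∀ F : Finset (Fin k),
        (fun j => if ∃ i ∈ F, (π ⊓ σ) i j then a j else 1) ∈ con S π ⊔ con S σ := by
      intro F
      induction F using Finset.induction_on with
      | empty =>
        have : (fun j => if ∃ i ∈ (∅ : Finset (Fin k)), (π ⊓ σ) i j then a j else 1) = 1 := by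
          ext j
          simp
        rw [this]
        exact one_mem _
      | insert i F hi ih =>
        by_cases hex : ∃ l ∈ F, (π ⊓ σ) l i
        · obtain ⟨l, hl, hli⟩ := hex
          have : (fun j => if ∃ m ∈ insert i F, (π ⊓ σ) m j then a j else 1) =
              (fun j => if ∃ m ∈ F, (π ⊓ σ) m j then a j else 1) := by
            ext j
            congr 1
            apply propext
            constructor
            · rintro ⟨m, hm, hmj⟩
              rcases mem_insert.1 hm with rfl | hm
              · exact ⟨l, hl, (π ⊓ σ).trans hli hmj⟩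
              · exact ⟨m, hm, hmj⟩
            · rintro ⟨m, hm, hmj⟩
              exact ⟨m, mem_insert_of_mem hm, hmj⟩
          rw [this]
          exact ih
        · have : (fun j => if ∃ m ∈ insert i F, (π ⊓ σ) m j then a j else 1) =
              ind (π ⊓ σ) i (a i) * (fun j => if ∃ m ∈ F, (π ⊓ σ) m j then a j else 1) := by
            ext j
            simp only [Pi.mul_apply, ind]
            by_cases hij : (π ⊓ σ) i j
            · have h1 : ¬ ∃ m ∈ F, (π ⊓ σ) m j := by
                rintro ⟨m, hm, hmj⟩
                exact hex ⟨m, hm, (π ⊓ σ).trans hmj ((π ⊓ σ).symm hij)⟩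
              rw [if_pos ⟨i, mem_insert_self _ _, hij⟩, if_pos hij, if_neg h1, mul_one,
                ha i j hij]
            · rw [if_neg hij, one_mul]
              congr 1
              apply propext
              constructor
              · rintro ⟨m, hm, hmj⟩
                rcases mem_insert.1 hm with rfl | hm
                · exact absurd hmj hij
                · exact ⟨m, hm, hmj⟩
              · rintro ⟨m, hm, hmj⟩
                exact ⟨m, mem_insert_of_mem hm, hmj⟩
          rw [this]
          exact mul_mem (ind_mem_sup hS π σ i (a i)) ih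
    have h := key univ
    have : (fun j => if ∃ i ∈ (univ : Finset (Fin k)), (π ⊓ σ) i j then a j else 1) = a := by
      ext j
      rw [if_pos ⟨j, mem_univ _, (π ⊓ σ).refl j⟩]
    rwa [this] at h
  · exact sup_le (con_anti inf_le_left) (con_anti inf_le_right)

theorem le_of_con_le [Nontrivial S] {π σ : Setoid (Fin k)} (h : con S σ ≤ con S π) : π ≤ σ := by
  classical
  intro i j hij
  obtain ⟨s, hs⟩ := exists_ne (1 : S)
  have h1 := h (ind_mem σ i s) i j hij
  simp only [ind] at h1
  rw [if_pos (σ.refl i)] at h1
  by_contra hn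
  rw [if_neg hn] at h1
  exact hs h1

/-- left coset partitions -/
theorem leftRel_sup {G : Type} [Group G] (H K : Subgroup G) :
    QuotientGroup.leftRel (H ⊔ K) = QuotientGroup.leftRel H ⊔ QuotientGroup.leftRel K := by
  set R := QuotientGroup.leftRel H ⊔ QuotientGroup.leftRel K with hR
  apply le_antisymm
  · have hH : QuotientGroup.leftRel H ≤ R := le_sup_left
    have hK : QuotientGroup.leftRel K ≤ R := le_sup_right
    let M : Subgroup G :=
      { carrier := {g | ∀ x, R x (x * g)}
        one_mem' := fun x => by rw [mul_one]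
        mul_mem' := fun {g h} hg hh x => by
          rw [← mul_assoc]
          exact R.trans (hg x) (hh (x * g))
        inv_mem' := fun {g} hg x => by
          have := hg (x * g⁻¹)
          rw [inv_mul_cancel_right] at this
          exact R.symm this }
    have hHM : H ≤ M := fun g hg x => hH (QuotientGroup.leftRel_apply.2 (by
      rw [inv_mul_cancel_left]; exact hg))
    have hKM : K ≤ M := fun g hg x => hK (QuotientGroup.leftRel_apply.2 (by
      rw [inv_mul_cancel_left]; exact hg))
    intro x y hxy
    have h1 : x⁻¹ * y ∈ H ⊔ K := QuotientGroup.leftRel_apply.1 hxy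
    have h2 := (sup_le hHM hKM) h1 x
    rwa [mul_inv_cancel_left] at h2
  · apply sup_le
    · intro x y hxy
      exact QuotientGroup.leftRel_apply.2
        ((le_sup_left : H ≤ H ⊔ K) (QuotientGroup.leftRel_apply.1 hxy))
    · intro x y hxy
      exact QuotientGroup.leftRel_apply.2
        ((le_sup_right : K ≤ H ⊔ K) (QuotientGroup.leftRel_apply.1 hxy))

theorem leftRel_inf {G : Type} [Group G] (H K : Subgroup G) :
    QuotientGroup.leftRel (H ⊓ K) = QuotientGroup.leftRel H ⊓ QuotientGroup.leftRel K := by
  ext x y
  rw [Setoid.inf_def]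
  simp only [Pi.inf_apply, inf_Prop_eq]
  rw [QuotientGroup.leftRel_apply, QuotientGroup.leftRel_apply, QuotientGroup.leftRel_apply]
  exact Iff.rfl

/-- the function with value `1` at `0` and given values elsewhere -/
def inc (a : Fin k → S) : Fin (k + 1) → S := Fin.cons 1 a

/-- normalisation of the value at `0` -/
def nor (g : Fin (k + 1) → S) : Fin k → S := fun i => g i.succ * (g 0)⁻¹

theorem nor_inc (a : Fin k → S) : nor (inc a) = a := by
  ext i
  simp [nor, inc]

/-- the relation on `Fin k → S` induced by the left cosets of `S ^ π` -/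
def rel (π : Setoid (Fin (k + 1))) : Setoid (Fin k → S) :=
  (QuotientGroup.leftRel (con S π)).comap inc

theorem inc_nor (g : Fin (k + 1) → S) : inc (nor g) = g * fun _ => (g 0)⁻¹ := by
  ext i
  refine Fin.cases ?_ (fun i => ?_) i
  · simp [inc]
  · simp [inc, nor]

theorem rel_nor (π : Setoid (Fin (k + 1))) {g h : Fin (k + 1) → S}
    (H : QuotientGroup.leftRel (con S π) g h) : rel π (nor g) (nor h) := by
  change QuotientGroup.leftRel (con S π) (inc (nor g)) (inc (nor h))
  rw [QuotientGroup.leftRel_apply] at H ⊢
  rw [inc_nor, inc_nor]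
  intro i j hij
  have h1 := H i j hij
  simp only [Pi.mul_apply, Pi.inv_apply] at h1 ⊢
  have h2 : ∀ i, (g i * (g 0)⁻¹)⁻¹ * (h i * (h 0)⁻¹) = g 0 * ((g i)⁻¹ * h i) * (h 0)⁻¹ := by
    intro i
    group
  rw [h2, h2, h1]

theorem comap_le_iff {α β : Type} (f : α → β) (r : Setoid β) (x y : α) :
    (r.comap f) x y ↔ r (f x) (f y) := Iff.rfl

theorem rel_inf (hS : commutator S = ⊤) (π σ : Setoid (Fin (k + 1))) :
    rel (S := S) (π ⊓ σ) = rel π ⊔ rel σ := by
  apply le_antisymm
  · intro a b hab
    have h1 : (QuotientGroup.leftRel (con S π) ⊔ QuotientGroup.leftRel (con S σ))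
        (inc a) (inc b) := by
      rw [← leftRel_sup, ← con_inf hS]
      exact hab
    have h2 : QuotientGroup.leftRel (con S π) ⊔ QuotientGroup.leftRel (con S σ) ≤
        (rel π ⊔ rel σ).comap nor := by
      apply sup_le
      · intro g h hgh
        exact (le_sup_left : rel π ≤ rel π ⊔ rel σ) (rel_nor π hgh)
      · intro g h hgh
        exact (le_sup_right : rel σ ≤ rel π ⊔ rel σ) (rel_nor σ hgh)
    have h3 := h2 h1
    rw [comap_le_iff, nor_inc, nor_inc] at h3
    exact h3
  · apply sup_le
    · intro a b hab
      have : con S π ≤ con S (π ⊓ σ) := con_anti inf_le_left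
      exact QuotientGroup.leftRel_apply.2 (this (QuotientGroup.leftRel_apply.1 hab))
    · intro a b hab
      have : con S σ ≤ con S (π ⊓ σ) := con_anti inf_le_right
      exact QuotientGroup.leftRel_apply.2 (this (QuotientGroup.leftRel_apply.1 hab))

theorem rel_sup (π σ : Setoid (Fin (k + 1))) :
    rel (S := S) (π ⊔ σ) = rel π ⊓ rel σ := by
  unfold rel
  rw [con_sup, leftRel_inf]
  rfl

theorem rel_inj [Nontrivial S] {π σ : Setoid (Fin (k + 1))} (h : rel (S := S) π = rel σ) :
    π = σ := by
  have key : ∀ π σ : Setoid (Fin (k + 1)), rel (S := S) σ ≤ rel π → π ≤ σ := by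
    intro π σ hle
    apply le_of_con_le (S := S)
    intro a ha
    have h1 : QuotientGroup.leftRel (con S σ) 1 a := QuotientGroup.leftRel_apply.2 (by
      rw [inv_one, one_mul]; exact ha)
    have h2 := hle (rel_nor σ h1)
    have h3 : QuotientGroup.leftRel (con S π) (inc (nor 1)) (inc (nor a)) := h2
    rw [QuotientGroup.leftRel_apply, inc_nor, inc_nor] at h3
    have h4 : (((1 : Fin (k + 1) → S) * fun _ => ((1 : Fin (k + 1) → S) 0)⁻¹)⁻¹ *
        (a * fun _ => (a 0)⁻¹)) = a * fun _ => (a 0)⁻¹ := by
      ext i
      simp
    rw [h4] at h3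
    intro i j hij
    have h5 := h3 i j hij
    simp only [Pi.mul_apply] at h5
    exact mul_right_cancel h5
  exact le_antisymm (key π σ h.ge) (key σ π h.le)

end Group

/-- transport of equivalence relations along a bijection -/
def tr {α β : Type} (e : α ≃ β) : Setoid α ≃o Setoid β where
  toFun r := r.comap e.symm
  invFun r := r.comap e
  left_inv r := by ext x y; simp [Setoid.comap_rel]
  right_inv r := by ext x y; simp [Setoid.comap_rel]
  map_rel_iff' {r s} := by
    constructor
    · intro h x y hxy
      have h1 : (r.comap e.symm) (e x) (e y) := by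
        change r (e.symm (e x)) (e.symm (e y))
        rw [e.symm_apply_apply, e.symm_apply_apply]
        exact hxy
      have h2 : (s.comap e.symm) (e x) (e y) := h h1
      change s (e.symm (e x)) (e.symm (e y)) at h2
      rwa [e.symm_apply_apply, e.symm_apply_apply] at h2
    · intro h x y hxy
      exact h hxy

theorem embed {k n : ℕ} {S : Type} [Group S] [Fintype S] [Nontrivial S]
    (hS : commutator S = ⊤) (hn : Fintype.card S ^ k = n) :
    ∃ f : LatticeHom (Setoid (Fin (k + 1)))ᵒᵈ (Setoid (Fin n)), Function.Injective f := by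
  classical
  have e : (Fin k → S) ≃ Fin n := Fintype.equivFinOfCardEq (by simp [hn])
  refine ⟨{ toFun := fun π => tr e (rel (S := S) (OrderDual.ofDual π))
            map_sup' := fun π σ => ?_
            map_inf' := fun π σ => ?_ }, fun π σ h => ?_⟩
  · rw [_root_.ofDual_sup, rel_inf hS, map_sup]
  · rw [_root_.ofDual_inf, rel_sup, map_inf]
  · have h1 : tr e (rel (S := S) (OrderDual.ofDual π)) =
        tr e (rel (S := S) (OrderDual.ofDual σ)) := h
    exact OrderDual.ofDual.injective (rel_inj ((tr e).injective h1))

theorem alt_perfect : commutator (alternatingGroup (Fin 5)) = ⊤ :=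
  commutator_alternatingGroup_eq_top (by simp)

theorem alt_card : Fintype.card (alternatingGroup (Fin 5)) = 60 := by
  rw [← Nat.card_eq_fintype_card, nat_card_alternatingGroup]
  simp [Nat.factorial]

/-- The dual of the partition lattice on four points embeds into the partition lattice on
`60 ^ 3 = 216000` points. In particular its Whitman number is at most `216000`, hence at most
`2 ^ 1000`. -/
theorem result :
    (∃ f : LatticeHom (Setoid (Fin 4))ᵒᵈ (Setoid (Fin 216000)), Function.Injective f) ∧
    whitmanNumber (Setoid (Fin 4))ᵒᵈ ≤ 216000 ∧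
    whitmanNumber (Setoid (Fin 4))ᵒᵈ ≤ 2 ^ 1000 := by
  have h := embed (k := 3) (n := 216000) alt_perfect (by rw [alt_card]; norm_num)
  have h1 : whitmanNumber (Setoid (Fin 4))ᵒᵈ ≤ 216000 := Nat.sInf_le h
  refine ⟨h, h1, h1.trans ?_⟩
  calc 216000 ≤ 2 ^ 18 := by norm_num
    _ ≤ 2 ^ 1000 := Nat.pow_le_pow_right (by norm_num) (by norm_num)

end Pool.Agent.Results.MP_437e5a_co.DualPartitionLattice
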